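import Pool.Graph.R_pool_sql_team_seeded_620a6dc7.Helper234_Grid.NoModel

/-!
# Drawings without natural `(p, t)`-grids have no large complete models of small radius

The proof of the library's theorem for `(t, t)`-grids, with two parameters.
-/

set_option autoImplicit false

namespace Pool.Agent.H40.GR

open Finset
open Pool.Agent.Helper234_Grid (VK RadLe Touch IsModel exists_walk third mem_support_of_mem_edges')

variable {V : Type}

/-- A natural `(p, t)`-grid for the crossing relation `X`. -/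
def Grid2 (G : SimpleGraph V) (X : Sym2 V → Sym2 V → Prop) (p t : ℕ) : Prop :=
  ∃ (e : Fin p → Sym2 V) (f : Fin t → Sym2 V), (∀ i, e i ∈ G.edgeSet) ∧ (∀ i, f i ∈ G.edgeSet) ∧
    (∀ i j, i ≠ j → ∀ v, v ∈ e i → v ∉ e j) ∧ (∀ i j, i ≠ j → ∀ v, v ∈ f i → v ∉ f j) ∧
    (∀ i j, ∀ v, v ∈ e i → v ∉ f j) ∧ ∀ i j, X (e i) (f j)

/-- the numerical bound -/
def NC (p t m : ℕ) : ℕ := (81 * m ^ 2) ^ p * ((2 * p) ^ p * t * 2 ^ (2 * p - 1)) + 1

theorem card_lt_of_model (G : SimpleGraph V) (X : Sym2 V → Sym2 V → Prop) (hVK : VK G X)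
    (p t : ℕ) (hp : 1 ≤ p) (ht : 1 ≤ t) (hgrid : ¬ Grid2 G X p t) (L : ℕ) (M : Finset (Finset V))
    (hM : IsModel G L M) : M.card < 6 * NC p t (2 * L + 1) := by
  classical
  by_contra hcon
  push Not at hcon
  set m := 2 * L + 1 with hm
  set N := NC p t m with hN
  have hNpos : 0 < N := by rw [hN, NC]; omega
  have : NeZero N := ⟨hNpos.ne'⟩
  let I := Fin 2 × Fin 3 × ZMod N
  have hcard : Fintype.card I = 6 * N := by
    simp only [I, Fintype.card_prod, Fintype.card_fin, ZMod.card]; ring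
  obtain ⟨φ⟩ : Nonempty (I ↪ M) := Function.Embedding.nonempty_of_card_le (by
    rw [hcard, Fintype.card_coe]; exact hcon)
  let B : I → Finset V := fun x => (φ x).1
  have hBinj : ∀ x y : I, x ≠ y → B x ≠ B y := fun x y h h' => h (φ.injective (Subtype.ext h'))
  have hBd : ∀ x y : I, x ≠ y → ∀ v, v ∈ B x → v ∉ B y := fun x y h v hv hv' =>
    (Finset.disjoint_left.1 (hM.disj _ (φ x).2 _ (φ y).2 (hBinj x y h))) hv hv'
  have hrad : ∀ x : I, ∃ c, RadLe G L (B x) c := fun x => hM.rad _ (φ x).2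
  choose c hc using hrad
  have hwalk : ∀ (i : Fin 3) (u : ZMod N) (j : Fin 3) (v : ZMod N),
      ∃ p : G.Walk (c (0, i, u)) (c (1, j, v)), p.length ≤ m ∧
        ∀ w ∈ p.support, w ∈ B (0, i, u) ∨ w ∈ B (1, j, v) := by
    intro i u j v
    have hne : ((0, i, u) : I) ≠ (1, j, v) := by
      intro h; exact Fin.zero_ne_one (congrArg Prod.fst h)
    exact exists_walk (hc _) (hc _) (hM.touch _ (φ _).2 _ (φ _).2 (hBinj _ _ hne))
  choose P hPlen hPsup using hwalk
  -- two independent walks have no common vertex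
  have hind : ∀ (i : Fin 3) (u : ZMod N) (j : Fin 3) (v : ZMod N) (i' : Fin 3) (u' : ZMod N)
      (j' : Fin 3) (v' : ZMod N), (i, u) ≠ (i', u') → (j, v) ≠ (j', v') →
      ∀ w, w ∈ (P i u j v).support → w ∉ (P i' u' j' v').support := by
    intro i u j v i' u' j' v' h1 h2 w hw hw'
    have e1 : ((0, i, u) : I) ≠ (0, i', u') := fun h => h1 (by
      have := congrArg Prod.snd h; exact this)
    have e2 : ((1, j, v) : I) ≠ (1, j', v') := fun h => h2 (by
      have := congrArg Prod.snd h; exact this)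
    have e3 : ((0, i, u) : I) ≠ (1, j', v') := fun h => Fin.zero_ne_one (congrArg Prod.fst h)
    have e4 : ((1, j, v) : I) ≠ (0, i', u') := fun h => Fin.zero_ne_one (congrArg Prod.fst h).symm
    rcases hPsup _ _ _ _ w hw with h | h <;> rcases hPsup _ _ _ _ w hw' with h' | h'
    · exact hBd _ _ e1 w h h'
    · exact hBd _ _ e3 w h h'
    · exact hBd _ _ e4 w h h'
    · exact hBd _ _ e2 w h h'
  -- the relation
  let R : (Fin 3 × Fin 3 × Fin 3 × Fin 3) × (Fin m × Fin m) → ZMod N → ZMod N → ZMod N →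
      ZMod N → Prop := fun κ u v u' v' =>
    ∃ e f : Sym2 V, (P κ.1.1 u κ.1.2.1 v).edges[κ.2.1.1]? = some e ∧
      (P κ.1.2.2.1 u' κ.1.2.2.2 v').edges[κ.2.2.1]? = some f ∧ X e f
  have key : ∀ q : (Fin 3 → ZMod N) × (Fin 3 → ZMod N),
      ∃ κ : (Fin 3 × Fin 3 × Fin 3 × Fin 3) × (Fin m × Fin m),
        κ.1.1 ≠ κ.1.2.2.1 ∧ κ.1.2.1 ≠ κ.1.2.2.2 ∧
        R κ (q.1 κ.1.1) (q.2 κ.1.2.1) (q.1 κ.1.2.2.1) (q.2 κ.1.2.2.2) := by
    rintro ⟨x, y⟩
    obtain ⟨i, j, i', j', hi, hj, e, he, f, hf, hX⟩ := hVK (fun i => c (0, i, x i))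
      (fun j => c (1, j, y j)) (fun i j => P i (x i) j (y j)) (by
        intro i j i' j' hi hj
        exact hind _ _ _ _ _ _ _ _ (fun h => hi (congrArg Prod.fst h))
          (fun h => hj (congrArg Prod.fst h)))
    obtain ⟨α, hα, rfl⟩ := List.mem_iff_getElem.1 he
    obtain ⟨β, hβ, rfl⟩ := List.mem_iff_getElem.1 hf
    have hα' : α < m := by
      have := hPlen i (x i) j (y j)
      rw [SimpleGraph.Walk.length_edges] at hα
      omega
    have hβ' : β < m := by
      have := hPlen i' (x i') j' (y j')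
      rw [SimpleGraph.Walk.length_edges] at hβ
      omega
    refine ⟨((i, j, i', j'), (⟨α, hα'⟩, ⟨β, hβ'⟩)), hi, hj, _, _, ?_, ?_, hX⟩
    · exact List.getElem?_eq_getElem hα
    · exact List.getElem?_eq_getElem hβ
  choose κ hκ1 hκ2 hκ using key
  -- pigeonhole
  let T := ((Fin 3 × Fin 3 × Fin 3 × Fin 3) × (Fin m × Fin m)) ×
    (ZMod N × ZMod N × ZMod N × ZMod N)
  let Φ : (Fin 3 → ZMod N) × (Fin 3 → ZMod N) → T := fun q =>
    (κ q, (q.1 (-((κ q).1.1 + (κ q).1.2.2.1)), q.2 (-((κ q).1.2.1 + (κ q).1.2.2.2)),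
      q.2 (κ q).1.2.1 - q.1 (κ q).1.1, q.2 (κ q).1.2.2.2 - q.1 (κ q).1.2.2.1))
  have hmpos : 0 < m := by omega
  have hTcard : (Finset.univ : Finset T).card = 81 * m ^ 2 * N ^ 4 := by
    rw [Finset.card_univ]
    simp only [T, Fintype.card_prod, Fintype.card_fin, ZMod.card]; ring
  have hScard : (Finset.univ : Finset ((Fin 3 → ZMod N) × (Fin 3 → ZMod N))).card = N ^ 6 := by
    rw [Finset.card_univ]
    simp only [Fintype.card_prod, Fintype.card_fun, Fintype.card_fin, ZMod.card]; ring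
  have : Nonempty (Fin m) := ⟨⟨0, hmpos⟩⟩
  have hNQ : (0 : ℚ) < N := by exact_mod_cast hNpos
  have hmQ : (0 : ℚ) < m := by exact_mod_cast hmpos
  obtain ⟨⟨κ0, a0, b0, s, s'⟩, -, hfib⟩ :=
    Finset.exists_le_card_fiber_of_nsmul_le_card_of_maps_to (M := ℚ) (s := Finset.univ)
      (t := (Finset.univ : Finset T)) (f := Φ) (b := (N : ℚ) ^ 2 / (81 * m ^ 2))
      (fun _ _ => Finset.mem_univ _) ⟨(((0, 0, 0, 0), (⟨0, hmpos⟩, ⟨0, hmpos⟩)), (0, 0, 0, 0)),
        Finset.mem_univ _⟩ (by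
        rw [hTcard, hScard, nsmul_eq_mul]
        push_cast
        apply le_of_eq
        field_simp)
  set F := (Finset.univ : Finset ((Fin 3 → ZMod N) × (Fin 3 → ZMod N))).filter
    (fun q => Φ q = (κ0, a0, b0, s, s')) with hF
  obtain ⟨⟨i, j, i', j'⟩, ⟨α, β⟩⟩ := κ0
  -- fibre
  have hFmem : ∀ q ∈ F, κ q = ((i, j, i', j'), (α, β)) ∧ q.1 (-(i + i')) = a0 ∧
      q.2 (-(j + j')) = b0 ∧ q.2 j - q.1 i = s ∧ q.2 j' - q.1 i' = s' := by
    intro q hq
    rw [hF, Finset.mem_filter] at hq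
    have h := hq.2
    have h1 : κ q = ((i, j, i', j'), (α, β)) := congrArg Prod.fst h
    have h2 : q.1 (-((κ q).1.1 + (κ q).1.2.2.1)) = a0 := congrArg (fun p => p.2.1) h
    have h3 : q.2 (-((κ q).1.2.1 + (κ q).1.2.2.2)) = b0 := congrArg (fun p => p.2.2.1) h
    have h4 : q.2 (κ q).1.2.1 - q.1 (κ q).1.1 = s := congrArg (fun p => p.2.2.2.1) h
    have h5 : q.2 (κ q).1.2.2.2 - q.1 (κ q).1.2.2.1 = s' := congrArg (fun p => p.2.2.2.2) h
    rw [h1] at h2 h3 h4 h5
    exact ⟨h1, h2, h3, h4, h5⟩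
  have hne : F.Nonempty := by
    rw [Finset.nonempty_iff_ne_empty]
    intro h0
    rw [h0, Finset.card_empty] at hfib
    have : (0 : ℚ) < (N : ℚ) ^ 2 / (81 * m ^ 2) := by positivity
    simp at hfib
    linarith
  obtain ⟨q0, hq0⟩ := hne
  have hii : i ≠ i' := by
    have := hκ1 q0; rw [(hFmem q0 hq0).1] at this; exact this
  have hjj : j ≠ j' := by
    have := hκ2 q0; rw [(hFmem q0 hq0).1] at this; exact this
  let g : (Fin 3 → ZMod N) × (Fin 3 → ZMod N) → ZMod N × ZMod N := fun q => (q.1 i, q.1 i')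
  have hginj : Set.InjOn g F := by
    intro q hq r hr hqr
    obtain ⟨-, h2, h3, h4, h5⟩ := hFmem q hq
    obtain ⟨-, h2', h3', h4', h5'⟩ := hFmem r hr
    simp only [g, Prod.mk.injEq] at hqr
    refine Prod.ext (funext fun k => ?_) (funext fun k => ?_)
    · rcases third i i' k hii with rfl | rfl | rfl
      · exact hqr.1
      · exact hqr.2
      · rw [h2, h2']
    · rcases third j j' k hjj with rfl | rfl | rfl
      · rw [sub_eq_iff_eq_add.1 h4, sub_eq_iff_eq_add.1 h4', hqr.1]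
      · rw [sub_eq_iff_eq_add.1 h5, sub_eq_iff_eq_add.1 h5', hqr.2]
      · rw [h3, h3']
  set Q := F.image g with hQ
  have hQcard : (N : ℚ) ^ 2 / (81 * m ^ 2) ≤ Q.card := by
    rw [hQ, Finset.card_image_of_injOn hginj]; exact hfib
  have hQR : ∀ x y : ZMod N, (x, y) ∈ Q →
      R ((i, j, i', j'), (α, β)) x (x + s) y (y + s') := by
    intro x y hxy
    rw [hQ, Finset.mem_image] at hxy
    obtain ⟨q, hq, hqe⟩ := hxy
    obtain ⟨h1, -, -, h4, h5⟩ := hFmem q hq
    simp only [g, Prod.mk.injEq] at hqe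
    have := hκ q
    rw [h1] at this
    simp only at this
    rw [hqe.1, hqe.2, sub_eq_iff_eq_add.1 h4, sub_eq_iff_eq_add.1 h5, hqe.1, hqe.2,
      add_comm s x, add_comm s' y] at this
    exact this
  -- Kővári–Sós–Turán
  have hkst : ∃ (S : Finset (ZMod N)) (S' : Finset (ZMod N)), S.card = p ∧ S'.card = t ∧
      ∀ x ∈ S, ∀ y ∈ S', (x, y) ∈ Q := by
    by_contra hno
    push Not at hno
    have h := Pool.Agent.TH602.Turan.kst Q p t hp ht (fun S S' hS hS' hall => by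
      obtain ⟨x, hx, y, hy, hxy⟩ := hno S S' hS hS'
      exact hxy (hall x hx y hy))
    rw [ZMod.card] at h
    have h' : (Q.card : ℚ) ^ p ≤ (2 * p) ^ p * t * ((N : ℚ) + N) ^ (2 * p - 1) := by
      exact_mod_cast h
    have h1 : ((N : ℚ) ^ 2 / (81 * m ^ 2)) ^ p ≤ (Q.card : ℚ) ^ p :=
      pow_le_pow_left₀ (by positivity) hQcard p
    have h2 := h1.trans h'
    rw [div_pow, div_le_iff₀ (by positivity)] at h2
    have e1 : ((N : ℚ) ^ 2) ^ p = (N : ℚ) ^ (2 * p - 1) * N := by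
      rw [← pow_mul, ← pow_succ]; congr 1; omega
    have e2 : ((N : ℚ) + N) ^ (2 * p - 1) = 2 ^ (2 * p - 1) * (N : ℚ) ^ (2 * p - 1) := by
      rw [← two_mul, mul_pow]
    rw [e1, e2] at h2
    have h3 : (N : ℚ) ^ (2 * p - 1) * N ≤ (N : ℚ) ^ (2 * p - 1) *
        ((81 * m ^ 2) ^ p * ((2 * p) ^ p * t * 2 ^ (2 * p - 1))) := by
      refine h2.trans (le_of_eq ?_); ring
    have h4 := le_of_mul_le_mul_left h3 (by positivity)
    have h5 : N ≤ (81 * m ^ 2) ^ p * ((2 * p) ^ p * t * 2 ^ (2 * p - 1)) := by exact_mod_cast h4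
    rw [hN, NC] at h5
    omega
  obtain ⟨S, S', hS, hS', hall⟩ := hkst
  let eS : Fin p ≃ S := (Finset.equivFinOfCardEq hS).symm
  let eS' : Fin t ≃ S' := (Finset.equivFinOfCardEq hS').symm
  have hQall : ∀ (a : Fin p) (b : Fin t), R ((i, j, i', j'), (α, β)) (eS a).1 ((eS a).1 + s)
      (eS' b).1 ((eS' b).1 + s') := fun a b => hQR _ _ (hall _ (eS a).2 _ (eS' b).2)
  have hE : ∀ a : Fin p, ∃ e : Sym2 V, (P i (eS a).1 j ((eS a).1 + s)).edges[α.1]? = some e := by
    intro a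
    obtain ⟨e, f, h1, -, -⟩ := hQall a ⟨0, ht⟩
    exact ⟨e, h1⟩
  have hE' : ∀ b : Fin t, ∃ f : Sym2 V,
      (P i' (eS' b).1 j' ((eS' b).1 + s')).edges[β.1]? = some f := by
    intro b
    obtain ⟨e, f, -, h2, -⟩ := hQall ⟨0, hp⟩ b
    exact ⟨f, h2⟩
  choose e he using hE
  choose f hf using hE'
  have hemem : ∀ a, e a ∈ (P i (eS a).1 j ((eS a).1 + s)).edges := fun a =>
    List.mem_of_getElem? (he a)
  have hfmem : ∀ b, f b ∈ (P i' (eS' b).1 j' ((eS' b).1 + s')).edges := fun b =>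
    List.mem_of_getElem? (hf b)
  refine hgrid ⟨e, f, fun a => ?_, fun b => ?_, ?_, ?_, ?_, ?_⟩
  · exact SimpleGraph.Walk.edges_subset_edgeSet _ (hemem a)
  · exact SimpleGraph.Walk.edges_subset_edgeSet _ (hfmem b)
  · intro a b hab v hv hv'
    have hne : (eS a).1 ≠ (eS b).1 := fun h => hab (eS.injective (Subtype.ext h))
    refine hind _ _ _ _ _ _ _ _ ?_ ?_ v (mem_support_of_mem_edges' _ (hemem a) hv)
      (mem_support_of_mem_edges' _ (hemem b) hv')
    · exact fun h => hne (congrArg Prod.snd h)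
    · exact fun h => hne (add_right_cancel (congrArg Prod.snd h))
  · intro a b hab v hv hv'
    have hne : (eS' a).1 ≠ (eS' b).1 := fun h => hab (eS'.injective (Subtype.ext h))
    refine hind _ _ _ _ _ _ _ _ ?_ ?_ v (mem_support_of_mem_edges' _ (hfmem a) hv)
      (mem_support_of_mem_edges' _ (hfmem b) hv')
    · exact fun h => hne (congrArg Prod.snd h)
    · exact fun h => hne (add_right_cancel (congrArg Prod.snd h))
  · intro a b v hv hv'
    refine hind _ _ _ _ _ _ _ _ ?_ ?_ v (mem_support_of_mem_edges' _ (hemem a) hv)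
      (mem_support_of_mem_edges' _ (hfmem b) hv')
    · exact fun h => hii (congrArg Prod.fst h)
    · exact fun h => hjj (congrArg Prod.fst h)
  · intro a b
    obtain ⟨e1, f1, h1, h2, h3⟩ := hQall a b
    have h4 := (he a).symm.trans h1
    have h5 := (hf b).symm.trans h2
    rw [Option.some.injEq] at h4 h5
    rw [h4, h5]
    exact h3

end Pool.Agent.H40.GR
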