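import Pool.Graph.R_pool_sql_team_seeded_620a6dc7.Helper234_Grid.Rec
import Pool.Agent.H40.GR.NoModel2

/-!
# A linear number of edges with an explicit constant
-/

set_option autoImplicit false

namespace Pool.Agent.H40.GR

open Finset
open Pool.Agent.Helper234_Grid (VK RadLe Touch IsModel ee recursion separator growth_cond PolyBdd)

/-- the parameters of the recursion -/
def lF (i : ℕ) : ℕ := 24 * (i + 1) ^ 2
def KF (i : ℕ) : ℕ := lF i * (i + 1)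
def hF (p t i : ℕ) : ℕ := 6 * NC p t (2 * (2 * KF i) + 1)
def aF (p t i : ℕ) : ℕ := hF p t i * (1 + hF p t i * (2 * KF i + 1))

theorem NC_le (p t lam u m : ℕ) (hp : 1 ≤ p) (hlam : 1 ≤ lam) (hpl : p ≤ 2 ^ lam) (ht : t ≤ 2 ^ lam)
    (hu : 1 ≤ u) (hm : m ≤ 2 ^ 7 * u ^ 3) :
    NC p t m ≤ 2 ^ (24 * p + p * lam + lam) * u ^ (6 * p) := by
  have h1 : (81 * m ^ 2) ^ p ≤ (2 ^ 21 * u ^ 6) ^ p := by
    apply Nat.pow_le_pow_left
    calc 81 * m ^ 2 ≤ 2 ^ 7 * (2 ^ 7 * u ^ 3) ^ 2 :=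
          Nat.mul_le_mul (by norm_num) (Nat.pow_le_pow_left hm 2)
      _ = 2 ^ 21 * u ^ 6 := by ring
  have h2 : (2 * p) ^ p ≤ (2 ^ (lam + 1)) ^ p := by
    apply Nat.pow_le_pow_left
    rw [pow_succ]
    omega
  have h3 : (81 * m ^ 2) ^ p * ((2 * p) ^ p * t * 2 ^ (2 * p - 1)) ≤
      (2 ^ 21 * u ^ 6) ^ p * ((2 ^ (lam + 1)) ^ p * 2 ^ lam * 2 ^ (2 * p - 1)) :=
    Nat.mul_le_mul h1 (Nat.mul_le_mul_right _ (Nat.mul_le_mul h2 ht))
  have h4 : (2 ^ 21 * u ^ 6) ^ p * ((2 ^ (lam + 1)) ^ p * 2 ^ lam * 2 ^ (2 * p - 1)) =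
      2 ^ (21 * p + (lam + 1) * p + lam + (2 * p - 1)) * u ^ (6 * p) := by
    rw [mul_pow, ← pow_mul, ← pow_mul, ← pow_mul, pow_add, pow_add, pow_add]
    ring
  have h5 : 24 * p + p * lam + lam = (21 * p + (lam + 1) * p + lam + (2 * p - 1)) + 1 := by
    have : (lam + 1) * p = p * lam + p := by ring
    omega
  have h6 : 1 ≤ 2 ^ (21 * p + (lam + 1) * p + lam + (2 * p - 1)) * u ^ (6 * p) :=
    Nat.one_le_iff_ne_zero.2 (by positivity)
  rw [NC, h5, pow_succ]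
  rw [h4] at h3
  calc _ ≤ 2 ^ (21 * p + (lam + 1) * p + lam + (2 * p - 1)) * u ^ (6 * p) +
        2 ^ (21 * p + (lam + 1) * p + lam + (2 * p - 1)) * u ^ (6 * p) := Nat.add_le_add h3 h6
    _ = _ := by ring

theorem la_le (p t lam i : ℕ) (hp : 1 ≤ p) (hlam : 1 ≤ lam) (hpl : p ≤ 2 ^ lam) (ht : t ≤ 2 ^ lam) :
    lF i * aF p t i ≤ 2 ^ (69 * (p * lam)) * (i + 1) ^ (17 * p) := by
  obtain ⟨u, hu⟩ : ∃ u, u = i + 1 := ⟨_, rfl⟩
  have hu1 : 1 ≤ u := by omega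
  have hu3 : 1 ≤ u ^ 3 := Nat.one_le_pow _ _ hu1
  have hK : KF i = 24 * u ^ 3 := by rw [KF, lF, hu]; ring
  have hm : 2 * (2 * KF i) + 1 ≤ 2 ^ 7 * u ^ 3 := by rw [hK]; omega
  have hNC := NC_le p t lam u _ hp hlam hpl ht hu1 hm
  obtain ⟨E, hE⟩ : ∃ E, E = 24 * p + p * lam + lam := ⟨_, rfl⟩
  rw [← hE] at hNC
  have hh : hF p t i ≤ 2 ^ (E + 3) * u ^ (6 * p) := by
    rw [hF, pow_add]
    calc 6 * NC p t (2 * (2 * KF i) + 1) ≤ 2 ^ 3 * (2 ^ E * u ^ (6 * p)) :=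
          Nat.mul_le_mul (by norm_num) hNC
      _ = 2 ^ E * 2 ^ 3 * u ^ (6 * p) := by ring
  have hh1 : 1 ≤ hF p t i := by
    rw [hF, NC]; omega
  have ha : aF p t i ≤ 2 ^ 6 * (hF p t i) ^ 2 * u ^ 3 := by
    rw [aF]
    have h1 : 1 + hF p t i * (2 * KF i + 1) ≤ 2 ^ 6 * hF p t i * u ^ 3 := by
      rw [hK]
      nlinarith [Nat.mul_le_mul hh1 hu3, Nat.mul_le_mul_left (hF p t i) hu3]
    calc hF p t i * (1 + hF p t i * (2 * KF i + 1)) ≤ hF p t i * (2 ^ 6 * hF p t i * u ^ 3) :=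
          Nat.mul_le_mul_left _ h1
      _ = 2 ^ 6 * (hF p t i) ^ 2 * u ^ 3 := by ring
  have hl : lF i ≤ 2 ^ 5 * u ^ 2 := by
    rw [lF, hu]
    exact Nat.mul_le_mul_right _ (by norm_num)
  have h1 : lF i * aF p t i ≤ 2 ^ (2 * E + 17) * u ^ (12 * p + 5) := by
    calc lF i * aF p t i ≤ (2 ^ 5 * u ^ 2) * (2 ^ 6 * (2 ^ (E + 3) * u ^ (6 * p)) ^ 2 * u ^ 3) :=
          Nat.mul_le_mul hl (ha.trans (Nat.mul_le_mul_right _ (Nat.mul_le_mul_left _
            (Nat.pow_le_pow_left hh 2))))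
      _ = 2 ^ (2 * E + 17) * u ^ (12 * p + 5) := by
          have e1 : 2 * E + 17 = 5 + 6 + (E + 3) * 2 := by ring
          have e2 : 12 * p + 5 = 2 + (6 * p) * 2 + 3 := by ring
          rw [e1, e2, pow_add, pow_add, pow_add, pow_add, pow_mul, pow_mul, mul_pow]
          ring
  have hw1 : p ≤ p * lam := Nat.le_mul_of_pos_right _ hlam
  have hw2 : lam ≤ p * lam := Nat.le_mul_of_pos_left _ hp
  refine h1.trans (Nat.mul_le_mul ?_ ?_)
  · apply Nat.pow_le_pow_right (by norm_num)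
    omega
  · rw [hu]
    apply Nat.pow_le_pow_right (by omega)
    omega

theorem num (p t lam i : ℕ) (hp : 1 ≤ p) (hlam : 1 ≤ lam) (hpl : p ≤ 2 ^ lam) (ht : t ≤ 2 ^ lam)
    (hi : 1000 * (p * lam) ≤ i) : lF i * aF p t i * 3 ^ i ≤ 4 ^ i := by
  obtain ⟨w, hw⟩ : ∃ w, w = p * lam := ⟨_, rfl⟩
  have hw1 : p ≤ w := by rw [hw]; exact Nat.le_mul_of_pos_right _ hlam
  have hw0 : 1 ≤ w := hp.trans hw1
  rw [← hw] at hi
  obtain ⟨j, hj⟩ : ∃ j, j = i / 3 := ⟨_, rfl⟩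
  obtain ⟨x, hx⟩ : ∃ x, x = j / (64 * w) := ⟨_, rfl⟩
  have hj1 : i + 1 ≤ 4 * (j + 1) := by omega
  have hj2 : 333 * w ≤ j := by omega
  have hx1 : 64 * w * x ≤ j := by rw [hx]; exact Nat.mul_div_le _ _
  have hx2 : j + 1 ≤ 64 * w * (x + 1) := by
    have := Nat.lt_mul_div_succ j (show 0 < 64 * w by omega)
    rw [← hx] at this
    exact this
  have hwl : w ≤ 2 ^ lam * 2 ^ lam := by
    rw [hw]
    exact Nat.mul_le_mul hpl Nat.lt_two_pow_self.le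
  have hxx : x + 1 ≤ 2 ^ x := Nat.lt_two_pow_self
  have hu : i + 1 ≤ 2 ^ (8 + 2 * lam + x) := by
    calc i + 1 ≤ 4 * (64 * w * (x + 1)) := hj1.trans (Nat.mul_le_mul_left _ hx2)
      _ ≤ 4 * (64 * (2 ^ lam * 2 ^ lam) * 2 ^ x) :=
          Nat.mul_le_mul_left _ (Nat.mul_le_mul (Nat.mul_le_mul_left _ hwl) hxx)
      _ = 2 ^ (8 + 2 * lam + x) := by
          rw [pow_add, pow_add, two_mul lam, pow_add]; ring
  have h1 : (i + 1) ^ (17 * p) ≤ 2 ^ (170 * w + 17 * (w * x)) := by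
    calc (i + 1) ^ (17 * p) ≤ (2 ^ (8 + 2 * lam + x)) ^ (17 * p) := Nat.pow_le_pow_left hu _
      _ = 2 ^ ((8 + 2 * lam + x) * (17 * p)) := by rw [← pow_mul]
      _ ≤ 2 ^ (170 * w + 17 * (w * x)) := by
          apply Nat.pow_le_pow_right (by norm_num)
          have e1 : (8 + 2 * lam + x) * (17 * p) = 136 * p + 34 * (p * lam) + 17 * (p * x) := by ring
          rw [e1, ← hw]
          have e2 : p * x ≤ w * x := Nat.mul_le_mul_right _ hw1
          omega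
  have h2 : lF i * aF p t i ≤ 2 ^ j := by
    refine (la_le p t lam i hp hlam hpl ht).trans ?_
    calc 2 ^ (69 * (p * lam)) * (i + 1) ^ (17 * p) ≤ 2 ^ (69 * w) * 2 ^ (170 * w + 17 * (w * x)) := by
          rw [← hw]
          exact Nat.mul_le_mul_left _ h1
      _ = 2 ^ (69 * w + (170 * w + 17 * (w * x))) := by rw [← pow_add]
      _ ≤ 2 ^ j := by
          apply Nat.pow_le_pow_right (by norm_num)
          have e3 : 64 * w * x = 64 * (w * x) := by ring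
          rw [e3] at hx1
          omega
  obtain ⟨r, hr⟩ : ∃ r, i = 3 * j + r := ⟨i % 3, by omega⟩
  calc lF i * aF p t i * 3 ^ i ≤ 2 ^ j * 3 ^ i := Nat.mul_le_mul_right _ h2
    _ = 54 ^ j * 3 ^ r := by
        rw [hr, pow_add, pow_mul, ← mul_assoc, ← mul_pow]
        norm_num
    _ ≤ 64 ^ j * 4 ^ r := Nat.mul_le_mul (Nat.pow_le_pow_left (by norm_num) _)
        (Nat.pow_le_pow_left (by norm_num) _)
    _ = 4 ^ i := by
        rw [hr, pow_add, pow_mul]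
        norm_num

/-- **Linear number of edges**, with an explicit constant. -/
theorem linear2 (p t lam : ℕ) (hp : 1 ≤ p) (ht : 1 ≤ t) (hlam : 1 ≤ lam) (hpl : p ≤ 2 ^ lam)
    (htl : t ≤ 2 ^ lam) (V : Type) (G : SimpleGraph V)
    (X : Sym2 V → Sym2 V → Prop) (hVK : VK G X) (hgrid : ¬ Grid2 G X p t) (U : Finset V) :
    ee G U ≤ 2 * 4 ^ (1000 * (p * lam)) * U.card := by
  classical
  obtain ⟨i0, hi0'⟩ : ∃ i0, i0 = 1000 * (p * lam) := ⟨_, rfl⟩
  have hi0 : ∀ i, i0 ≤ i → lF i * aF p t i * 3 ^ i ≤ 4 ^ i := fun i hi =>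
    num p t lam i hp hlam hpl htl (by rw [← hi0']; exact hi)
  rw [← hi0']
  have hrec := recursion G i0 (aF p t) (by
    intro i hi U hU1 hU2
    constructor
    · refine separator G U (lF i) (KF i) (hF p t i) (fun M hM => ?_) ?_
      · exact card_lt_of_model G X hVK p t hp ht hgrid (2 * KF i) M hM
      · refine growth_cond U.card (lF i) (i + 1) ?_ ?_
        · have : 1 ≤ (i + 1) ^ 2 := Nat.one_le_pow _ _ (by omega)
          show 1 ≤ 24 * (i + 1) ^ 2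
          omega
        · by_contra hcon
          push Not at hcon
          have h1 : 2 ^ (i + 1) * 3 ^ (i + 1) ≤ 4 ^ (i + 1) :=
            (Nat.mul_le_mul_right _ hcon).trans hU2
          rw [← mul_pow] at h1
          have h2 : 4 ^ (i + 1) < (2 * 3) ^ (i + 1) := Nat.pow_lt_pow_left (by norm_num) (by omega)
          omega
    · have h1 := hi0 i hi
      have h2 : lF i * aF p t i * 3 ^ i < U.card * 3 ^ i := lt_of_le_of_lt h1 hU1
      exact (lt_of_mul_lt_mul_right h2 (Nat.zero_le _)).le)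
  -- choose a large scale
  obtain ⟨i1, hi1⟩ := (PolyBdd.const U.card).eventually
  have h1 := hrec (max i0 i1) (le_max_left _ _) U (hi1 _ (le_max_right _ _))
  have h2 : (ee G U : ℚ) ≤ 2 * 4 ^ i0 * U.card := by
    refine h1.trans ?_
    refine mul_le_mul_of_nonneg_right ?_ (Nat.cast_nonneg _)
    have h3 : (0 : ℚ) ≤ 1 / (((max i0 i1 : ℕ) : ℚ) + 1) := by positivity
    have h4 : (0 : ℚ) ≤ 4 ^ i0 := by positivity
    nlinarith
  exact_mod_cast h2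

/-- the constant `(2 t) ^ (2001 p)` -/
theorem linear3 (p t : ℕ) (hp : 1 ≤ p) (hpt : p ≤ t) (V : Type) (G : SimpleGraph V)
    (X : Sym2 V → Sym2 V → Prop) (hVK : VK G X) (hgrid : ¬ Grid2 G X p t) (U : Finset V) :
    ee G U ≤ (2 * t) ^ (2001 * p) * U.card := by
  have ht : 1 ≤ t := hp.trans hpt
  have h1 : t < 2 ^ (Nat.log 2 t + 1) := Nat.lt_pow_succ_log_self (by norm_num) t
  have h2 : 2 ^ (Nat.log 2 t + 1) ≤ 2 * t := by
    rw [pow_succ, mul_comm]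
    exact Nat.mul_le_mul_left _ (Nat.pow_log_le_self 2 (by omega))
  refine (linear2 p t (Nat.log 2 t + 1) hp ht (by omega) (hpt.trans h1.le) h1.le V G X hVK hgrid
    U).trans ?_
  refine Nat.mul_le_mul_right _ ?_
  have h3 : 4 ^ (1000 * (p * (Nat.log 2 t + 1))) = (2 ^ (Nat.log 2 t + 1)) ^ (2000 * p) := by
    rw [← pow_mul]
    have : (4 : ℕ) = 2 ^ 2 := by norm_num
    rw [this, ← pow_mul]
    congr 1
    ring
  rw [h3]
  calc 2 * (2 ^ (Nat.log 2 t + 1)) ^ (2000 * p) ≤ (2 * t) ^ p * (2 * t) ^ (2000 * p) := by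
        refine Nat.mul_le_mul ?_ (Nat.pow_le_pow_left h2 _)
        calc 2 ≤ 2 * t := by omega
          _ = (2 * t) ^ 1 := (pow_one _).symm
          _ ≤ (2 * t) ^ p := Nat.pow_le_pow_right (by omega) hp
    _ = (2 * t) ^ (2001 * p) := by rw [← pow_add]; congr 1; ring

end Pool.Agent.H40.GR
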