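import Pool.Graph.R_pool_sql_team_seeded_620a6dc7.Helper234_Grid.Topo
import Pool.Agent.H40.GR.Lin

/-!
# Counting natural grids
-/

set_option autoImplicit false

namespace Pool.Agent.H40.GR

open Finset
open Pool.Agent.Helper234_Grid (VK ee TopologicalGraph vk)

variable {V : Type}

/-- The pair `P = (E₁, E₂)` is a natural `(k, l)`-grid of the topological graph `D`: `E₁` and `E₂`
are disjoint sets of `k` and of `l` edges, every edge of `E₁` crosses every edge of `E₂`, and no two
of the `k + l` edges share an endvertex. -/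
def IsNaturalGrid (D : TopologicalGraph V) (k l : ℕ) (P : Finset (Sym2 V) × Finset (Sym2 V)) : Prop :=
  (P.1 : Set (Sym2 V)) ⊆ D.graph.edgeSet ∧ (P.2 : Set (Sym2 V)) ⊆ D.graph.edgeSet ∧
    Disjoint P.1 P.2 ∧ P.1.card = k ∧ P.2.card = l ∧ (∀ e ∈ P.1, ∀ f ∈ P.2, D.Cross e f) ∧
    ∀ e f : Sym2 V, (e ∈ P.1 ∨ e ∈ P.2) → (f ∈ P.1 ∨ f ∈ P.2) → e ≠ f → ∀ v : V, ¬ (v ∈ e ∧ v ∈ f)

/-- the number of the natural `(k, l)`-grids of `D` -/
noncomputable def gridCount (D : TopologicalGraph V) (k l : ℕ) : ℕ :=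
  {P : Finset (Sym2 V) × Finset (Sym2 V) | IsNaturalGrid D k l P}.ncard

theorem hasNaturalGrid_iff (D : TopologicalGraph V) (k l : ℕ) :
    D.HasNaturalGrid k l ↔ ∃ P, IsNaturalGrid D k l P :=
  ⟨fun ⟨E₁, E₂, h⟩ => ⟨(E₁, E₂), h⟩, fun ⟨P, h⟩ => ⟨P.1, P.2, h⟩⟩

theorem vk_mono {G G' : SimpleGraph V} {X : Sym2 V → Sym2 V → Prop} (hle : G' ≤ G) (h : VK G X) :
    VK G' X := by
  intro a b p hp
  obtain ⟨i, j, i', j', hi, hj, e, he, f, hf, hX⟩ := h a b (fun i j => (p i j).mapLe hle) (by
    intro i j i' j' hi hj v hv hv'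
    rw [SimpleGraph.Walk.support_mapLe_eq_support] at hv hv'
    exact hp i j i' j' hi hj v hv hv')
  refine ⟨i, j, i', j', hi, hj, e, ?_, f, ?_, hX⟩
  · rw [SimpleGraph.Walk.edges_mapLe_eq_edges] at he
    exact he
  · rw [SimpleGraph.Walk.edges_mapLe_eq_edges] at hf
    exact hf

theorem cross_symm {D : TopologicalGraph V} {e f : Sym2 V} (h : D.Cross e f) : D.Cross f e := by
  obtain ⟨hne, z, h1, h2, h3, h4⟩ := h
  exact ⟨hne.symm, z, h2, h1, h4, h3⟩

/-- a grid for functions gives a grid of sets -/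
theorem natural_of_grid2 (D : TopologicalGraph V) (G : SimpleGraph V) (hG : G ≤ D.graph) (p t : ℕ)
    (h : Grid2 G D.Cross p t) : ∃ P, IsNaturalGrid D p t P ∧
      (P.1 : Set (Sym2 V)) ⊆ G.edgeSet ∧ (P.2 : Set (Sym2 V)) ⊆ G.edgeSet := by
  classical
  obtain ⟨e, f, he, hf, h1, h2, h3, h4⟩ := h
  have hne : ∀ z : Sym2 V, ∃ v, v ∈ z := fun z => by
    induction z with
    | _ x y => exact ⟨x, Sym2.mem_mk_left x y⟩
  have hei : Function.Injective e := by
    intro i j hij
    by_contra hcon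
    obtain ⟨v, hv⟩ := hne (e i)
    exact h1 i j hcon v hv (hij ▸ hv)
  have hfi : Function.Injective f := by
    intro i j hij
    by_contra hcon
    obtain ⟨v, hv⟩ := hne (f i)
    exact h2 i j hcon v hv (hij ▸ hv)
  have hsub1 : ((Finset.univ.image e : Finset (Sym2 V)) : Set (Sym2 V)) ⊆ G.edgeSet := by
    intro z hz
    rw [Finset.mem_coe, Finset.mem_image] at hz
    obtain ⟨i, -, rfl⟩ := hz
    exact he i
  have hsub2 : ((Finset.univ.image f : Finset (Sym2 V)) : Set (Sym2 V)) ⊆ G.edgeSet := by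
    intro z hz
    rw [Finset.mem_coe, Finset.mem_image] at hz
    obtain ⟨i, -, rfl⟩ := hz
    exact hf i
  have hmono : G.edgeSet ⊆ D.graph.edgeSet := SimpleGraph.edgeSet_mono hG
  refine ⟨(Finset.univ.image e, Finset.univ.image f), ⟨hsub1.trans hmono, hsub2.trans hmono, ?_, ?_,
    ?_, ?_, ?_⟩, hsub1, hsub2⟩
  · rw [Finset.disjoint_left]
    intro z hz hz'
    obtain ⟨i, -, rfl⟩ := Finset.mem_image.1 hz
    obtain ⟨j, -, hj⟩ := Finset.mem_image.1 hz'
    obtain ⟨v, hv⟩ := hne (e i)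
    exact h3 i j v hv (hj ▸ hv)
  · rw [Finset.card_image_of_injective _ hei, Finset.card_univ, Fintype.card_fin]
  · rw [Finset.card_image_of_injective _ hfi, Finset.card_univ, Fintype.card_fin]
  · intro x hx y hy
    obtain ⟨i, -, rfl⟩ := Finset.mem_image.1 hx
    obtain ⟨j, -, rfl⟩ := Finset.mem_image.1 hy
    exact h4 i j
  · intro x y hx hy hxy v ⟨hvx, hvy⟩
    rcases hx with hx | hx <;> rcases hy with hy | hy
    · obtain ⟨i, -, rfl⟩ := Finset.mem_image.1 hx
      obtain ⟨j, -, rfl⟩ := Finset.mem_image.1 hy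
      exact h1 i j (fun h => hxy (by rw [h])) v hvx hvy
    · obtain ⟨i, -, rfl⟩ := Finset.mem_image.1 hx
      obtain ⟨j, -, rfl⟩ := Finset.mem_image.1 hy
      exact h3 i j v hvx hvy
    · obtain ⟨i, -, rfl⟩ := Finset.mem_image.1 hx
      obtain ⟨j, -, rfl⟩ := Finset.mem_image.1 hy
      exact h3 j i v hvy hvx
    · obtain ⟨i, -, rfl⟩ := Finset.mem_image.1 hx
      obtain ⟨j, -, rfl⟩ := Finset.mem_image.1 hy
      exact h2 i j (fun h => hxy (by rw [h])) v hvx hvy

theorem swap_grid {D : TopologicalGraph V} {k l : ℕ} {P : Finset (Sym2 V) × Finset (Sym2 V)}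
    (h : IsNaturalGrid D k l P) : IsNaturalGrid D l k (P.2, P.1) := by
  obtain ⟨h1, h2, h3, h4, h5, h6, h7⟩ := h
  exact ⟨h2, h1, h3.symm, h5, h4, fun e he f hf => cross_symm (h6 f hf e he),
    fun e f he hf hne => h7 e f he.symm hf.symm hne⟩

/-- the constant -/
def cst (k l : ℕ) : ℕ := (2 * max k l) ^ (2001 * min k l)

/-- the linear bound for a set of edges of a topological graph that contains no natural grid -/
theorem ee_le (D : TopologicalGraph V) (k l : ℕ) (hk : 1 ≤ k) (hl : 1 ≤ l) (G : SimpleGraph V)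
    (hG : G ≤ D.graph) (hno : ∀ P, IsNaturalGrid D k l P → (P.1 : Set (Sym2 V)) ⊆ G.edgeSet →
      (P.2 : Set (Sym2 V)) ⊆ G.edgeSet → False) (U : Finset V) :
    ee G U ≤ cst k l * U.card := by
  rcases le_total k l with h | h
  · rw [cst, max_eq_right h, min_eq_left h]
    refine linear3 k l hk h V G D.Cross (vk_mono hG (vk D)) (fun hgr => ?_) U
    obtain ⟨P, hP, h1, h2⟩ := natural_of_grid2 D G hG k l hgr
    exact hno P hP h1 h2
  · rw [cst, max_eq_left h, min_eq_right h]
    refine linear3 l k hl h V G D.Cross (vk_mono hG (vk D)) (fun hgr => ?_) U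
    obtain ⟨P, hP, h1, h2⟩ := natural_of_grid2 D G hG l k hgr
    exact hno (P.2, P.1) (swap_grid hP) h2 h1

section count

variable [Fintype V]

open Classical in
/-- the edges inside `U` -/
noncomputable def EU (D : TopologicalGraph V) (U : Finset V) : Finset (Sym2 V) :=
  Finset.univ.filter (fun e => e ∈ D.graph.edgeSet ∧ ∀ v ∈ e, v ∈ U)

open Classical in
/-- the natural grids inside `U` -/
noncomputable def GU (D : TopologicalGraph V) (k l : ℕ) (U : Finset V) :
    Finset (Finset (Sym2 V) × Finset (Sym2 V)) :=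
  Finset.univ.filter (fun P => IsNaturalGrid D k l P ∧
    ∀ e, (e ∈ P.1 ∨ e ∈ P.2) → ∀ v ∈ e, v ∈ U)

theorem EU_le (D : TopologicalGraph V) (k l : ℕ) (hk : 1 ≤ k) (hl : 1 ≤ l) (U : Finset V) :
    (EU D U).card ≤ (GU D k l U).card + cst k l * U.card := by
  classical
  have hch : ∀ P : {P // P ∈ GU D k l U}, ∃ e, e ∈ P.1.1 := by
    rintro ⟨P, hP⟩
    have h := (Finset.mem_filter.1 hP).2.1
    have h1 : P.1.Nonempty := by
      rw [← Finset.card_pos, h.2.2.2.1]
      exact hk
    exact h1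
  choose ch hch using hch
  obtain ⟨F, hF⟩ : ∃ F, F = EU D U \ ((GU D k l U).attach.image ch) := ⟨_, rfl⟩
  have hFE : ∀ e ∈ F, e ∈ D.graph.edgeSet ∧ ∀ v ∈ e, v ∈ U := by
    intro e he
    rw [hF, Finset.mem_sdiff] at he
    exact (Finset.mem_filter.1 he.1).2
  have h1 : (EU D U).card ≤ F.card + (GU D k l U).card := by
    have h2 : EU D U ⊆ F ∪ ((GU D k l U).attach.image ch) := by
      intro e he
      rw [hF, Finset.mem_union, Finset.mem_sdiff]
      by_cases h : e ∈ (GU D k l U).attach.image ch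
      · exact Or.inr h
      · exact Or.inl ⟨he, h⟩
    refine (Finset.card_le_card h2).trans ((Finset.card_union_le _ _).trans ?_)
    have h3 : ((GU D k l U).attach.image ch).card ≤ (GU D k l U).card := by
      refine Finset.card_image_le.trans ?_
      rw [Finset.card_attach]
    omega
  -- the graph
  obtain ⟨G, hG⟩ : ∃ G : SimpleGraph V, G = SimpleGraph.fromEdgeSet (F : Set (Sym2 V)) := ⟨_, rfl⟩
  have hGe : G.edgeSet = (F : Set (Sym2 V)) := by
    rw [hG, SimpleGraph.edgeSet_fromEdgeSet]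
    refine sdiff_eq_left.2 (Set.disjoint_left.2 fun e he hd => ?_)
    exact SimpleGraph.not_isDiag_of_mem_edgeSet _ (hFE e he).1 hd
  have hGD : G ≤ D.graph := by
    rw [← SimpleGraph.edgeSet_subset_edgeSet, hGe]
    exact fun e he => (hFE e he).1
  have h2 : ee G U ≤ cst k l * U.card := by
    refine ee_le D k l hk hl G hGD (fun P hP hP1 hP2 => ?_) U
    rw [hGe] at hP1 hP2
    have hPG : P ∈ GU D k l U := by
      refine Finset.mem_filter.2 ⟨Finset.mem_univ _, hP, fun e he v hv => ?_⟩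
      rcases he with he | he
      · exact (hFE e (hP1 he)).2 v hv
      · exact (hFE e (hP2 he)).2 v hv
    have h3 := hP1 (hch ⟨P, hPG⟩)
    rw [Finset.mem_coe, hF, Finset.mem_sdiff] at h3
    exact h3.2 (Finset.mem_image.2 ⟨⟨P, hPG⟩, Finset.mem_attach _ _, rfl⟩)
  have h3 : F.card ≤ ee G U := by
    rw [ee]
    have h4 : F ⊆ ((U ×ˢ U).filter fun p => G.Adj p.1 p.2).image (fun p => s(p.1, p.2)) := by
      intro e he
      obtain ⟨h5, h6⟩ := hFE e he
      have h7 : e ∈ G.edgeSet := by rw [hGe]; exact he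
      induction e with
      | _ x y =>
        refine Finset.mem_image.2 ⟨(x, y), Finset.mem_filter.2 ⟨Finset.mem_product.2
          ⟨h6 x (Sym2.mem_mk_left x y), h6 y (Sym2.mem_mk_right x y)⟩, ?_⟩, rfl⟩
        exact (SimpleGraph.mem_edgeSet G).1 h7
    refine (Finset.card_le_card h4).trans ?_
    convert Finset.card_image_le
  omega

/-- the weight of a set of vertices -/
noncomputable def wt (p : ℝ) (U : Finset V) : ℝ := by
  classical exact p ^ U.card * (1 - p) ^ (Finset.univ \ U).card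

theorem wt_nonneg {p : ℝ} (h0 : 0 ≤ p) (h1 : p ≤ 1) (U : Finset V) : 0 ≤ wt p U := by
  classical
  unfold wt
  exact mul_nonneg (pow_nonneg h0 _) (pow_nonneg (by linarith) _)

open Classical in
theorem sum_wt (p : ℝ) (T : Finset V) :
    ∑ U : Finset V, wt p U * (if T ⊆ U then (1 : ℝ) else 0) = p ^ T.card := by
  classical
  have h := Finset.prod_add (fun _ : V => p) (fun i : V => if i ∈ T then (0 : ℝ) else 1 - p)
    (Finset.univ : Finset V)
  have h1 : ∏ i : V, (p + if i ∈ T then (0 : ℝ) else 1 - p) = p ^ T.card := by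
    have h2 : ∀ i : V, (p + if i ∈ T then (0 : ℝ) else 1 - p) = if i ∈ T then p else 1 := by
      intro i
      split_ifs <;> ring
    rw [Finset.prod_congr rfl fun i _ => h2 i, Finset.prod_ite_mem, Finset.univ_inter,
      Finset.prod_const]
  rw [h1, Finset.powerset_univ] at h
  rw [h]
  refine Finset.sum_congr rfl fun U _ => ?_
  unfold wt
  rw [Finset.prod_const]
  split_ifs with hT
  · rw [mul_one]
    congr 1
    rw [Finset.prod_congr rfl (g := fun _ => 1 - p), Finset.prod_const]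
    intro i hi
    rw [if_neg]
    intro hi'
    exact (Finset.mem_sdiff.1 hi).2 (hT hi')
  · rw [mul_zero]
    rw [Finset.not_subset] at hT
    obtain ⟨i, hi, hi'⟩ := hT
    symm
    apply mul_eq_zero_of_right
    exact Finset.prod_eq_zero (Finset.mem_sdiff.2 ⟨Finset.mem_univ i, hi'⟩) (if_pos hi)

open Classical in
theorem sum_wt_card {α : Type} (p : ℝ) (A : Finset α) (T : α → Finset V) (s : ℕ)
    (hT : ∀ a ∈ A, (T a).card = s) (f : Finset V → ℕ)
    (hf : ∀ U, (f U : ℝ) = ∑ a ∈ A, if T a ⊆ U then (1 : ℝ) else 0) :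
    ∑ U : Finset V, wt p U * f U = A.card * p ^ s := by
  classical
  calc ∑ U : Finset V, wt p U * f U = ∑ U : Finset V, ∑ a ∈ A, wt p U *
        (if T a ⊆ U then (1 : ℝ) else 0) := by
        refine Finset.sum_congr rfl fun U _ => ?_
        rw [hf, Finset.mul_sum]
    _ = ∑ a ∈ A, p ^ (T a).card := by
        rw [Finset.sum_comm]
        exact Finset.sum_congr rfl fun a _ => sum_wt p (T a)
    _ = A.card * p ^ s := by
        rw [Finset.sum_congr rfl fun a ha => by rw [hT a ha], Finset.sum_const, nsmul_eq_mul]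

theorem sym2_toFinset_subset [DecidableEq V] (e : Sym2 V) (U : Finset V) :
    e.toFinset ⊆ U ↔ ∀ v ∈ e, v ∈ U := by
  constructor
  · intro h v hv
    exact h (Sym2.mem_toFinset.2 hv)
  · intro h v hv
    exact h v (Sym2.mem_toFinset.1 hv)

theorem verts_card [DecidableEq V] (D : TopologicalGraph V) (k l : ℕ) (P : Finset (Sym2 V) × Finset (Sym2 V))
    (hP : IsNaturalGrid D k l P) :
    ((P.1 ∪ P.2).biUnion (fun e => e.toFinset)).card = 2 * (k + l) := by
  obtain ⟨h1, h2, h3, h4, h5, h6, h7⟩ := hP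
  rw [Finset.card_biUnion]
  · have h8 : ∀ e ∈ P.1 ∪ P.2, e.toFinset.card = 2 := by
      intro e he
      have h9 : e ∈ D.graph.edgeSet := by
        rcases Finset.mem_union.1 he with he | he
        · exact h1 he
        · exact h2 he
      exact Sym2.card_toFinset_of_not_isDiag e (SimpleGraph.not_isDiag_of_mem_edgeSet _ h9)
    rw [Finset.sum_congr rfl h8, Finset.sum_const, Finset.card_union_of_disjoint h3, h4, h5,
      smul_eq_mul, mul_comm]
  · intro e he f hf hef
    rw [Function.onFun, Finset.disjoint_left]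
    intro v hv hv'
    exact h7 e f (Finset.mem_union.1 he) (Finset.mem_union.1 hf) hef v
      ⟨Sym2.mem_toFinset.1 hv, Sym2.mem_toFinset.1 hv'⟩

/-- the averaged inequality -/
theorem averaged (D : TopologicalGraph V) (k l : ℕ) (hk : 1 ≤ k) (hl : 1 ≤ l) {p : ℝ} (h0 : 0 ≤ p)
    (h1 : p ≤ 1) :
    (D.graph.edgeSet.ncard : ℝ) * p ^ 2 ≤
      gridCount D k l * p ^ (2 * (k + l)) + cst k l * (Fintype.card V * p) := by
  classical
  obtain ⟨A, hA⟩ : ∃ A : Finset (Finset (Sym2 V) × Finset (Sym2 V)),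
      A = Finset.univ.filter (fun P => IsNaturalGrid D k l P) := ⟨_, rfl⟩
  obtain ⟨E, hE⟩ : ∃ E : Finset (Sym2 V), E = Finset.univ.filter (fun e => e ∈ D.graph.edgeSet) :=
    ⟨_, rfl⟩
  have hAc : gridCount D k l = A.card := by
    rw [gridCount, ← Set.ncard_coe_finset]
    congr 1
    ext P
    simp [hA]
  have hEc : D.graph.edgeSet.ncard = E.card := by
    rw [← Set.ncard_coe_finset]
    congr 1
    ext e
    simp [hE]
  have hG : ∑ U : Finset V, wt p U * ((GU D k l U).card : ℝ) = A.card * p ^ (2 * (k + l)) := by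
    refine sum_wt_card p A (fun P => (P.1 ∪ P.2).biUnion (fun e => e.toFinset)) _ ?_
      (fun U => (GU D k l U).card) ?_
    · intro P hP
      rw [hA, Finset.mem_filter] at hP
      exact verts_card D k l P hP.2
    · intro U
      rw [← Finset.sum_filter, Finset.sum_const, nsmul_eq_mul, mul_one, Nat.cast_inj]
      congr 1
      ext P
      rw [GU, hA, Finset.mem_filter, Finset.mem_filter, Finset.mem_filter,
        Finset.biUnion_subset]
      simp only [Finset.mem_univ, true_and, Finset.mem_union, sym2_toFinset_subset]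
  have hM : ∑ U : Finset V, wt p U * ((EU D U).card : ℝ) = E.card * p ^ 2 := by
    refine sum_wt_card p E (fun e => e.toFinset) _ ?_ (fun U => (EU D U).card) ?_
    · intro e he
      rw [hE, Finset.mem_filter] at he
      exact Sym2.card_toFinset_of_not_isDiag e (SimpleGraph.not_isDiag_of_mem_edgeSet _ he.2)
    · intro U
      rw [← Finset.sum_filter, Finset.sum_const, nsmul_eq_mul, mul_one, Nat.cast_inj]
      congr 1
      ext e
      rw [EU, hE, Finset.mem_filter, Finset.mem_filter, Finset.mem_filter]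
      simp only [Finset.mem_univ, true_and, sym2_toFinset_subset]
  have hU : ∑ U : Finset V, wt p U * ((U.card : ℕ) : ℝ) = (Finset.univ : Finset V).card * p ^ 1 := by
    refine sum_wt_card p Finset.univ (fun v => {v}) _ (fun v _ => Finset.card_singleton v)
      (fun U => U.card) ?_
    intro U
    rw [← Finset.sum_filter, Finset.sum_const, nsmul_eq_mul, mul_one, Nat.cast_inj]
    congr 1
    ext v
    simp
  rw [hAc, hEc, ← hM, ← hG]
  have hV : (cst k l : ℝ) * (Fintype.card V * p) =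
      ∑ U : Finset V, wt p U * ((cst k l : ℝ) * U.card) := by
    rw [Finset.card_univ, pow_one] at hU
    rw [← hU, Finset.mul_sum]
    exact Finset.sum_congr rfl fun U _ => by ring
  rw [hV, ← Finset.sum_add_distrib]
  refine Finset.sum_le_sum fun U _ => ?_
  rw [← mul_add]
  refine mul_le_mul_of_nonneg_left ?_ (wt_nonneg h0 h1 U)
  exact_mod_cast EU_le D k l hk hl U

/-- the linear bound -/
theorem linear_bound (D : TopologicalGraph V) (k l : ℕ) (hk : 1 ≤ k) (hl : 1 ≤ l)
    (h : ¬ D.HasNaturalGrid k l) : D.graph.edgeSet.ncard ≤ cst k l * Fintype.card V := by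
  have h1 := averaged D k l hk hl (p := 1) zero_le_one le_rfl
  have h2 : gridCount D k l = 0 := by
    rw [gridCount, Set.ncard_eq_zero]
    rw [hasNaturalGrid_iff] at h
    push Not at h
    exact Set.eq_empty_of_forall_notMem fun P hP => h P hP
  rw [h2] at h1
  simp only [one_pow, mul_one, Nat.cast_zero, zero_add] at h1
  exact_mod_cast h1

/-- the counting theorem -/
theorem count_bound (D : TopologicalGraph V) (k l : ℕ) (hk : 1 ≤ k) (hl : 1 ≤ l)
    (h : 2 * cst k l * Fintype.card V ≤ D.graph.edgeSet.ncard) :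
    (cst k l * Fintype.card V : ℝ) *
      ((D.graph.edgeSet.ncard : ℝ) / (2 * cst k l * Fintype.card V)) ^ (2 * (k + l) - 1) ≤
      gridCount D k l := by
  obtain ⟨s, hs⟩ : ∃ s, 2 * (k + l) = s + 2 := ⟨2 * (k + l) - 2, by omega⟩
  have hc1 : 1 ≤ cst k l := Nat.one_le_pow _ _ (by
    have := le_max_left k l
    omega)
  rcases Nat.eq_zero_or_pos (Fintype.card V) with hV | hV
  · rw [hV]
    simp
  have hB : (0 : ℝ) < 2 * cst k l * Fintype.card V := by
    have h1 : (0 : ℝ) < cst k l := by exact_mod_cast hc1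
    have h2 : (0 : ℝ) < Fintype.card V := by exact_mod_cast hV
    positivity
  have hm : (2 * cst k l * Fintype.card V : ℝ) ≤ D.graph.edgeSet.ncard := by exact_mod_cast h
  obtain ⟨m, hmd⟩ : ∃ m : ℝ, m = D.graph.edgeSet.ncard := ⟨_, rfl⟩
  obtain ⟨B, hBd⟩ : ∃ B : ℝ, B = 2 * cst k l * Fintype.card V := ⟨_, rfl⟩
  have hcn : (cst k l * Fintype.card V : ℝ) = B / 2 := by rw [hBd]; ring
  rw [← hmd] at hm ⊢
  rw [← hBd] at hB hm ⊢
  have hm0 : 0 < m := lt_of_lt_of_le hB hm
  have h1 := averaged D k l hk hl (p := B / m) (by positivity) ((div_le_one hm0).2 hm)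
  have h2 : (cst k l : ℝ) * (Fintype.card V * (B / m)) = B / 2 * (B / m) := by
    rw [← hcn]; ring
  rw [h2, ← hmd, hs] at h1
  rw [hcn, hs]
  have h3 : m * (B / m) ^ 2 = B * (B / m) := by
    field_simp
  rw [h3] at h1
  have h4 : B / 2 * (B / m) ≤ gridCount D k l * (B / m) ^ (s + 2) := by linarith
  have h5 : 0 < B / m := by positivity
  have h6 : (B / m) ^ (s + 2) = (B / m) ^ (s + 1) * (B / m) := pow_succ _ _
  rw [h6, ← mul_assoc] at h4
  have h7 : B / 2 ≤ gridCount D k l * (B / m) ^ (s + 1) := le_of_mul_le_mul_right h4 h5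
  have h8 : s + 2 - 1 = s + 1 := by omega
  rw [h8]
  have h9 : (m / B) ^ (s + 1) = ((B / m) ^ (s + 1))⁻¹ := by
    rw [← inv_pow, inv_div]
  rw [h9, ← div_eq_mul_inv, div_le_iff₀ (by positivity)]
  exact h7

end count

end Pool.Agent.H40.GR
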