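import Pool.Agent.H40.GR.Tight

/-!
# The counting bound in integral form, and its sharpness
-/

set_option autoImplicit false

namespace Pool.Agent.H40.GR

open Finset
open Pool.Agent.Helper234_Grid (TopologicalGraph)

variable {V : Type}

/-- Two different edges have at most one common point. -/
def IsSimple (D : TopologicalGraph V) : Prop :=
  ∀ e ∈ D.graph.edgeSet, ∀ f ∈ D.graph.edgeSet, e ≠ f → (D.arc e ∩ D.arc f).Subsingleton

theorem seg_line {u v : ℝ} {z : ℝ × ℝ} (h : z ∈ segment ℝ (par u) (par v)) :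
    z.2 = (u + v) * z.1 - u * v := by
  obtain ⟨t, -, -, rfl⟩ := mem_seg h
  simp only
  ring

theorem simple_convex (G : SimpleGraph V) (r : V → ℝ) (hr : Function.Injective r) :
    IsSimple (convexDrawing G r hr) := by
  intro e he f hf hne z hz z' hz'
  obtain ⟨⟨u1, u2, rfl, hu⟩, v1, v2, rfl, hv⟩ := hz
  obtain ⟨⟨u1', u2', heq, hu'⟩, v1', v2', hfq, hv'⟩ := hz'
  have hu2 : z' ∈ segment ℝ (par (r u1)) (par (r u2)) := by
    rcases Sym2.eq_iff.1 heq with ⟨h4, h5⟩ | ⟨h4, h5⟩
    · rw [h4, h5]; exact hu'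
    · rw [h4, h5, segment_symm]; exact hu'
  have hv2 : z' ∈ segment ℝ (par (r v1)) (par (r v2)) := by
    rcases Sym2.eq_iff.1 hfq with ⟨h4, h5⟩ | ⟨h4, h5⟩
    · rw [h4, h5]; exact hv'
    · rw [h4, h5, segment_symm]; exact hv'
  have a1 := seg_line hu
  have a2 := seg_line hv
  have a3 := seg_line hu2
  have a4 := seg_line hv2
  by_cases hx : z.1 = z'.1
  · exact Prod.ext hx (by rw [a1, a3, hx])
  · exfalso
    have hs : r u1 + r u2 = r v1 + r v2 := by
      have h1 : ((r u1 + r u2) - (r v1 + r v2)) * (z.1 - z'.1) = 0 := by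
        linear_combination a2 - a1 - a4 + a3
      rcases mul_eq_zero.1 h1 with h2 | h2
      · linarith
      · exact absurd (by linarith) hx
    have hp : r u1 * r u2 = r v1 * r v2 := by
      have h1 : (r u1 + r u2) * z.1 - r u1 * r u2 = (r v1 + r v2) * z.1 - r v1 * r v2 := by
        rw [← a1, ← a2]
      rw [hs] at h1
      linarith
    have h3 : (r u1 - r v1) * (r u1 - r v2) = 0 := by
      have : (r u1 - r v1) * (r u1 - r v2) = r u1 ^ 2 - r u1 * (r v1 + r v2) + r v1 * r v2 := by ring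
      rw [this, ← hs, ← hp]
      ring
    apply hne
    rcases mul_eq_zero.1 h3 with h4 | h4
    · have h5 : u1 = v1 := hr (by linarith)
      have h6 : u2 = v2 := hr (by
        rw [h5] at hs
        linarith)
      rw [h5, h6]
    · have h5 : u1 = v2 := hr (by linarith)
      have h6 : u2 = v1 := hr (by
        rw [h5] at hs
        linarith)
      rw [h5, h6, Sym2.eq_swap]

/-- the counting theorem without division -/
theorem count_bound' [Fintype V] (D : TopologicalGraph V) (k l : ℕ) (hk : 1 ≤ k) (hl : 1 ≤ l)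
    (h : 2 * cst k l * Fintype.card V ≤ D.graph.edgeSet.ncard) :
    D.graph.edgeSet.ncard ^ (2 * (k + l) - 1) ≤
      2 ^ (2 * (k + l) - 1) * (cst k l * Fintype.card V) ^ (2 * (k + l) - 2) * gridCount D k l := by
  obtain ⟨s, hs⟩ : ∃ s, 2 * (k + l) = s + 2 := ⟨2 * (k + l) - 2, by omega⟩
  have h1 := count_bound D k l hk hl h
  have hs1 : 2 * (k + l) - 1 = s + 1 := by omega
  have hs2 : 2 * (k + l) - 2 = s := by omega
  rw [hs1] at h1 ⊢
  rw [hs2]
  rcases Nat.eq_zero_or_pos (Fintype.card V) with hV | hV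
  · have : IsEmpty V := Fintype.card_eq_zero_iff.1 hV
    have h2 : D.graph.edgeSet = ∅ := by
      ext e
      induction e with
      | _ u v => exact isEmptyElim u
    rw [h2, Set.ncard_empty, zero_pow (by omega)]
    exact Nat.zero_le _
  have hc1 : 1 ≤ cst k l := Nat.one_le_pow _ _ (by
    have := le_max_left k l
    omega)
  have hX : (0 : ℝ) < cst k l * Fintype.card V := by
    have h2 : (0 : ℝ) < cst k l := by exact_mod_cast hc1
    have h3 : (0 : ℝ) < Fintype.card V := by exact_mod_cast hV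
    positivity
  obtain ⟨X, hXd⟩ : ∃ X : ℝ, X = cst k l * Fintype.card V := ⟨_, rfl⟩
  have h2 : (2 * cst k l * Fintype.card V : ℝ) = 2 * X := by rw [hXd]; ring
  rw [h2, ← hXd, div_pow, ← mul_div_assoc, div_le_iff₀ (by rw [hXd]; positivity)] at h1
  have h3 : (D.graph.edgeSet.ncard : ℝ) ^ (s + 1) ≤ 2 ^ (s + 1) * X ^ s * gridCount D k l := by
    have h4 : X * (D.graph.edgeSet.ncard : ℝ) ^ (s + 1) ≤
        X * (2 ^ (s + 1) * X ^ s * gridCount D k l) := by
      refine h1.trans (le_of_eq ?_)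
      rw [mul_pow, pow_succ X]
      ring
    exact le_of_mul_le_mul_left h4 (by rw [hXd]; exact hX)
  rw [hXd] at h3
  exact_mod_cast h3

theorem sharp (k l : ℕ) (hk : 1 ≤ k) (hl : 1 ≤ l) (a b : ℕ) (hb : 2 ≤ b) :
    gridCount (drawing a b) k l * (a * b) ^ (2 * (k + l) - 2) ≤
      4 ^ (k + l - 1) * (drawing a b).graph.edgeSet.ncard ^ (2 * (k + l) - 1) := by
  obtain ⟨s, hs⟩ : ∃ s, k + l = s + 1 := ⟨k + l - 1, by omega⟩
  have h1 := count_le (a := a) (b := b) k l hk hl
  have hm : (drawing a b).graph.edgeSet.ncard = a * b.choose 2 := by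
    have h2 : 2 * (drawing a b).graph.edgeSet.ncard = a * b * (b - 1) := two_edges a b
    have h3 : 2 * b.choose 2 = b * (b - 1) := by
      rw [Nat.choose_two_right]
      exact Nat.mul_div_cancel' (Nat.even_mul_pred_self b).two_dvd
    have h4 : 2 * (a * b.choose 2) = a * b * (b - 1) := by
      calc 2 * (a * b.choose 2) = a * (2 * b.choose 2) := by ring
        _ = a * b * (b - 1) := by rw [h3]; ring
    omega
  obtain ⟨q, hq⟩ : ∃ q, q = b.choose 2 := ⟨_, rfl⟩
  have hbq : b ^ 2 ≤ 4 * q := by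
    have h3 : 2 * b.choose 2 = b * (b - 1) := by
      rw [Nat.choose_two_right]
      exact Nat.mul_div_cancel' (Nat.even_mul_pred_self b).two_dvd
    obtain ⟨b', rfl⟩ : ∃ b', b = b' + 2 := ⟨b - 2, by omega⟩
    have h4 : b' + 2 - 1 = b' + 1 := by omega
    rw [h4] at h3
    rw [hq]
    nlinarith
  rw [← hq] at h1 hm
  have e1 : 2 * (k + l) - 2 = 2 * s := by omega
  have e2 : 2 * (k + l) - 1 = 2 * s + 1 := by omega
  have e3 : k + l - 1 = s := by omega
  rw [hm, e1, e2, e3]
  rw [hs] at h1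
  calc gridCount (drawing a b) k l * (a * b) ^ (2 * s) ≤ (a * q ^ (s + 1)) * (a * b) ^ (2 * s) :=
        Nat.mul_le_mul_right _ h1
    _ = a ^ (2 * s + 1) * q ^ (s + 1) * (b ^ 2) ^ s := by
        rw [mul_pow, ← pow_mul, pow_succ a]; ring
    _ ≤ a ^ (2 * s + 1) * q ^ (s + 1) * (4 * q) ^ s :=
        Nat.mul_le_mul_left _ (Nat.pow_le_pow_left hbq s)
    _ = 4 ^ s * (a * q) ^ (2 * s + 1) := by
        rw [mul_pow, mul_pow]
        have : q ^ (2 * s + 1) = q ^ (s + 1) * q ^ s := by rw [← pow_add]; congr 1; ring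
        rw [this]
        ring

end Pool.Agent.H40.GR
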