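import Pool.Agent.H40.GR.Count

/-!
# Disjoint cliques in convex position
-/

set_option autoImplicit false

namespace Pool.Agent.H40.GR

open Finset
open Pool.Agent.Helper234_Grid (TopologicalGraph)

variable {V : Type}

/-- points of a parabola -/
def par (x : ℝ) : ℝ × ℝ := (x, x ^ 2)

theorem par_inj : Function.Injective par := fun _ _ h => congrArg Prod.fst h

theorem mem_seg {u v : ℝ} {z : ℝ × ℝ} (h : z ∈ segment ℝ (par u) (par v)) :
    ∃ t : ℝ, 0 ≤ t ∧ t ≤ 1 ∧ z = ((1 - t) * u + t * v, (1 - t) * u ^ 2 + t * v ^ 2) := by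
  obtain ⟨a, t, ha, ht, hat, rfl⟩ := h
  have ha' : a = 1 - t := by linarith
  subst ha'
  refine ⟨t, ht, by linarith, ?_⟩
  simp [par]

theorem avoid_seg {u v w : ℝ} (h : par w ∈ segment ℝ (par u) (par v)) : w = u ∨ w = v := by
  obtain ⟨t, ht0, ht1, h1⟩ := mem_seg h
  have h2 : w = (1 - t) * u + t * v := congrArg Prod.fst h1
  have h3 : w ^ 2 = (1 - t) * u ^ 2 + t * v ^ 2 := congrArg Prod.snd h1
  have h4 : (t * (1 - t)) * (u - v) ^ 2 = 0 := by
    rw [h2] at h3
    linear_combination -h3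
  rcases mul_eq_zero.1 h4 with h5 | h5
  · rcases mul_eq_zero.1 h5 with h6 | h6
    · left; rw [h2, h6]; ring
    · right
      have h7 : t = 1 := by linarith
      rw [h2, h7]; ring
  · left
    have h7 : u = v := by
      have := pow_eq_zero_iff (two_ne_zero) |>.1 h5
      linarith
    rw [h2, h7]; ring

/-- the straight line drawing of a graph whose vertices are placed on a parabola -/
def convexDrawing (G : SimpleGraph V) (r : V → ℝ) (hr : Function.Injective r) :
    TopologicalGraph V where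
  graph := G
  pos := fun v => par (r v)
  arc := fun e => {z | ∃ u v, e = s(u, v) ∧ z ∈ segment ℝ (par (r u)) (par (r v))}
  pos_injective := par_inj.comp hr
  isArc := by
    intro u v huv
    have hne : r u ≠ r v := fun h => huv.ne (hr h)
    refine ⟨fun t => ((1 - (t : ℝ)) * r u + t * r v, (1 - (t : ℝ)) * r u ^ 2 + t * r v ^ 2), ?_, ?_, ?_,
      ?_, ?_⟩
    · fun_prop
    · intro s t h
      have h1 : (1 - (s : ℝ)) * r u + s * r v = (1 - (t : ℝ)) * r u + t * r v := congrArg Prod.fst h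
      have h2 : ((s : ℝ) - t) * (r v - r u) = 0 := by linear_combination h1
      rcases mul_eq_zero.1 h2 with h3 | h3
      · exact Subtype.ext (by linarith)
      · exact absurd (by linarith) hne
    · simp [par]
    · simp [par]
    · ext z
      constructor
      · rintro ⟨t, rfl⟩
        refine ⟨u, v, rfl, 1 - t, t, by linarith [t.2.2], t.2.1, by ring, ?_⟩
        simp [par]
      · rintro ⟨u', v', h1, h2⟩
        have h3 : z ∈ segment ℝ (par (r u)) (par (r v)) := by
          rcases Sym2.eq_iff.1 h1 with ⟨h4, h5⟩ | ⟨h4, h5⟩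
          · rw [h4, h5]; exact h2
          · rw [h4, h5, segment_symm]; exact h2
        obtain ⟨t, ht0, ht1, h4⟩ := mem_seg h3
        exact ⟨⟨t, ht0, ht1⟩, h4.symm⟩
  avoid := by
    rintro e - w ⟨u, v, rfl, h⟩
    rcases avoid_seg h with h1 | h1
    · rw [hr h1]; exact Sym2.mem_mk_left u v
    · rw [hr h1]; exact Sym2.mem_mk_right u v

variable {a b : ℕ}

/-- the disjoint union of `a` complete graphs on `b` vertices -/
def cliques (a b : ℕ) : SimpleGraph (Fin a × Fin b) where
  Adj u v := u.1 = v.1 ∧ u.2 ≠ v.2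
  symm := ⟨fun _ _ h => ⟨h.1.symm, h.2.symm⟩⟩
  loopless := ⟨fun _ h => h.2 rfl⟩

/-- the places of the vertices -/
def place (a b : ℕ) (v : Fin a × Fin b) : ℝ := ((v.1 * b + v.2 : ℕ) : ℝ)

theorem place_inj : Function.Injective (place a b) := by
  intro u v h
  have h1 : (u.1 * b + u.2 : ℕ) = v.1 * b + v.2 := by
    unfold place at h
    exact_mod_cast h
  have hb : 0 < b := by
    have := u.2.isLt
    omega
  have h2 : ((u.1 * b + u.2 : ℕ)) / b = (v.1 * b + v.2) / b := by rw [h1]
  have h3 : ((u.1 * b + u.2 : ℕ)) % b = (v.1 * b + v.2) % b := by rw [h1]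
  rw [mul_comm, Nat.mul_add_div hb, mul_comm, Nat.mul_add_div hb, Nat.div_eq_of_lt u.2.isLt,
    Nat.div_eq_of_lt v.2.isLt] at h2
  rw [mul_comm, Nat.mul_add_mod, mul_comm, Nat.mul_add_mod, Nat.mod_eq_of_lt u.2.isLt,
    Nat.mod_eq_of_lt v.2.isLt] at h3
  exact Prod.ext (Fin.ext (by omega)) (Fin.ext h3)

/-- the drawing of the cliques -/
noncomputable def drawing (a b : ℕ) : TopologicalGraph (Fin a × Fin b) :=
  convexDrawing (cliques a b) (place a b) place_inj

theorem seg_bounds {u v z : ℝ} {lo hi : ℝ} (hu : lo ≤ u ∧ u ≤ hi) (hv : lo ≤ v ∧ v ≤ hi)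
    {w : ℝ × ℝ} (h : w ∈ segment ℝ (par u) (par v)) : lo ≤ w.1 ∧ w.1 ≤ hi := by
  obtain ⟨t, ht0, ht1, rfl⟩ := mem_seg h
  constructor
  · have h1 := mul_le_mul_of_nonneg_left hu.1 (sub_nonneg.2 ht1)
    have h2 := mul_le_mul_of_nonneg_left hv.1 ht0
    simp only
    linarith
  · have h1 := mul_le_mul_of_nonneg_left hu.2 (sub_nonneg.2 ht1)
    have h2 := mul_le_mul_of_nonneg_left hv.2 ht0
    simp only
    linarith

/-- crossing edges are in the same clique -/
theorem same_block {e f : Sym2 (Fin a × Fin b)} (he : e ∈ (cliques a b).edgeSet)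
    (hf : f ∈ (cliques a b).edgeSet) (h : (drawing a b).Cross e f) :
    ∀ u ∈ e, ∀ v ∈ f, u.1 = v.1 := by
  obtain ⟨-, z, ⟨u1, u2, rfl, hu⟩, ⟨v1, v2, rfl, hv⟩, -, -⟩ := h
  rw [SimpleGraph.mem_edgeSet] at he hf
  have hb : ∀ w : Fin a × Fin b, ((w.1 : ℕ) : ℝ) * b ≤ place a b w ∧
      place a b w ≤ ((w.1 : ℕ) : ℝ) * b + (b - 1) := by
    intro w
    have h1 := w.2.isLt
    have h2 : ((w.2 : ℕ) : ℝ) + 1 ≤ b := by exact_mod_cast h1
    unfold place
    push_cast
    constructor
    · have : (0 : ℝ) ≤ ((w.2 : ℕ) : ℝ) := Nat.cast_nonneg _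
      linarith
    · linarith
  have hu' := seg_bounds (z := 0) (hb u1) (by rw [he.1]; exact hb u2) hu
  have hv' := seg_bounds (z := 0) (hb v1) (by rw [hf.1]; exact hb v2) hv
  have hb0 : (0 : ℝ) < b := by
    have := u1.2.isLt
    exact_mod_cast (by omega : 0 < b)
  have key : u1.1 = v1.1 := by
    rcases lt_trichotomy u1.1 v1.1 with h1 | h1 | h1
    · exfalso
      have h2 : ((u1.1 : ℕ) : ℝ) + 1 ≤ ((v1.1 : ℕ) : ℝ) := by exact_mod_cast h1
      have h3 := mul_le_mul_of_nonneg_right h2 hb0.le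
      linarith [hu'.2, hv'.1]
    · exact h1
    · exfalso
      have h2 : ((v1.1 : ℕ) : ℝ) + 1 ≤ ((u1.1 : ℕ) : ℝ) := by exact_mod_cast h1
      have h3 := mul_le_mul_of_nonneg_right h2 hb0.le
      linarith [hv'.2, hu'.1]
  intro u hu v hv
  rw [Sym2.mem_iff] at hu hv
  rcases hu with rfl | rfl <;> rcases hv with rfl | rfl
  · exact key
  · rw [← hf.1]; exact key
  · rw [← he.1]; exact key
  · rw [← he.1, ← hf.1]; exact key

open Classical in
/-- the edges of a block -/
noncomputable def blk (a b : ℕ) (i : Fin a) : Finset (Sym2 (Fin a × Fin b)) :=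
  ((Finset.univ : Finset (Sym2 (Fin b))).filter (fun e => ¬ e.IsDiag)).image
    (Sym2.map (fun x => (i, x)))

theorem blk_card (i : Fin a) : (blk a b i).card ≤ b.choose 2 := by
  classical
  refine Finset.card_image_le.trans (le_of_eq ?_)
  have := Sym2.card_subtype_not_diag (α := Fin b)
  rw [Fintype.card_subtype, Fintype.card_fin] at this
  convert this

theorem mem_blk {e : Sym2 (Fin a × Fin b)} (he : e ∈ (cliques a b).edgeSet) (i : Fin a)
    (h : ∀ u ∈ e, u.1 = i) : e ∈ blk a b i := by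
  classical
  induction e with
  | _ u v =>
    rw [SimpleGraph.mem_edgeSet] at he
    have hu := h u (Sym2.mem_mk_left u v)
    have hv := h v (Sym2.mem_mk_right u v)
    refine Finset.mem_image.2 ⟨s(u.2, v.2), Finset.mem_filter.2 ⟨Finset.mem_univ _, ?_⟩, ?_⟩
    · rw [Sym2.mk_isDiag_iff]
      exact he.2
    · rw [Sym2.map_mk]
      simp only [← hu]
      congr 1
      · rw [hu, ← hv]

theorem two_edges (a b : ℕ) : 2 * (cliques a b).edgeSet.ncard = a * b * (b - 1) := by
  classical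
  have h := SimpleGraph.sum_degrees_eq_twice_card_edges (cliques a b)
  have hd : ∀ v, (cliques a b).degree v = b - 1 := by
    intro v
    rw [← SimpleGraph.card_neighborFinset_eq_degree]
    have h1 : (cliques a b).neighborFinset v =
        ((Finset.univ : Finset (Fin b)).erase v.2).image (fun x => (v.1, x)) := by
      ext w
      rw [SimpleGraph.mem_neighborFinset, Finset.mem_image]
      constructor
      · rintro ⟨h1, h2⟩
        exact ⟨w.2, Finset.mem_erase.2 ⟨fun h => h2 h.symm, Finset.mem_univ _⟩, Prod.ext h1 rfl⟩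
      · rintro ⟨x, hx, rfl⟩
        exact ⟨rfl, fun h => (Finset.mem_erase.1 hx).1 h.symm⟩
    rw [h1, Finset.card_image_of_injective _ (fun x y h => congrArg Prod.snd h),
      Finset.card_erase_of_mem (Finset.mem_univ _), Finset.card_univ, Fintype.card_fin]
  rw [Finset.sum_congr rfl fun v _ => hd v, Finset.sum_const, Finset.card_univ, Fintype.card_prod,
    Fintype.card_fin, Fintype.card_fin, smul_eq_mul] at h
  rw [h]
  congr 1
  rw [← SimpleGraph.coe_edgeFinset, Set.ncard_coe_finset]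

theorem grid_block (k l : ℕ) (hk : 1 ≤ k) (hl : 1 ≤ l)
    (P : Finset (Sym2 (Fin a × Fin b)) × Finset (Sym2 (Fin a × Fin b)))
    (hP : IsNaturalGrid (drawing a b) k l P) :
    ∃ i : Fin a, ∀ e, (e ∈ P.1 ∨ e ∈ P.2) → e ∈ (cliques a b).edgeSet ∧ ∀ u ∈ e, u.1 = i := by
  obtain ⟨h1, h2, h3, h4, h5, h6, h7⟩ := hP
  have hn1 : P.1.Nonempty := by
    rw [← Finset.card_pos, h4]; exact hk
  have hn2 : P.2.Nonempty := by
    rw [← Finset.card_pos, h5]; exact hl
  obtain ⟨e0, he0⟩ := hn1
  obtain ⟨f0, hf0⟩ := hn2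
  have hne : ∀ z : Sym2 (Fin a × Fin b), ∃ v, v ∈ z := fun z => by
    induction z with
    | _ x y => exact ⟨x, Sym2.mem_mk_left x y⟩
  obtain ⟨w, hw⟩ := hne f0
  obtain ⟨w', hw'⟩ := hne e0
  refine ⟨w.1, ?_⟩
  rintro e (he | he)
  · refine ⟨h1 he, fun u hu => ?_⟩
    exact same_block (h1 he) (h2 hf0) (h6 e he f0 hf0) u hu w hw
  · refine ⟨h2 he, fun u hu => ?_⟩
    have h8 := same_block (h1 he0) (h2 he) (h6 e0 he0 e he) w' hw' u hu
    have h9 := same_block (h1 he0) (h2 hf0) (h6 e0 he0 f0 hf0) w' hw' w hw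
    rw [← h8, h9]

theorem count_le (k l : ℕ) (hk : 1 ≤ k) (hl : 1 ≤ l) :
    gridCount (drawing a b) k l ≤ a * (b.choose 2) ^ (k + l) := by
  classical
  have hsub : {P : Finset (Sym2 (Fin a × Fin b)) × Finset (Sym2 (Fin a × Fin b)) |
      IsNaturalGrid (drawing a b) k l P} ⊆
      (((Finset.univ : Finset (Fin a)).biUnion (fun i =>
        (Finset.powersetCard k (blk a b i)) ×ˢ (Finset.powersetCard l (blk a b i))) : Finset _) :
        Set _) := by
    intro P hP
    obtain ⟨i, hi⟩ := grid_block k l hk hl P hP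
    rw [Finset.mem_coe, Finset.mem_biUnion]
    refine ⟨i, Finset.mem_univ _, Finset.mem_product.2 ⟨?_, ?_⟩⟩
    · exact Finset.mem_powersetCard.2 ⟨fun e he => mem_blk (hi e (Or.inl he)).1 i (hi e (Or.inl he)).2,
        hP.2.2.2.1⟩
    · exact Finset.mem_powersetCard.2 ⟨fun e he => mem_blk (hi e (Or.inr he)).1 i (hi e (Or.inr he)).2,
        hP.2.2.2.2.1⟩
  rw [gridCount]
  refine (Set.ncard_le_ncard hsub (Finset.finite_toSet _)).trans ?_
  rw [Set.ncard_coe_finset]
  refine Finset.card_biUnion_le.trans ?_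
  have h1 : ∀ i ∈ (Finset.univ : Finset (Fin a)),
      ((Finset.powersetCard k (blk a b i)) ×ˢ (Finset.powersetCard l (blk a b i))).card ≤
        (b.choose 2) ^ (k + l) := by
    intro i _
    rw [Finset.card_product, Finset.card_powersetCard, Finset.card_powersetCard, pow_add]
    exact Nat.mul_le_mul ((Nat.choose_le_pow _ _).trans (Nat.pow_le_pow_left (blk_card i) _))
      ((Nat.choose_le_pow _ _).trans (Nat.pow_le_pow_left (blk_card i) _))
  refine (Finset.sum_le_card_nsmul _ _ _ h1).trans ?_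
  rw [Finset.card_univ, Fintype.card_fin, smul_eq_mul]

theorem count_zero (k l : ℕ) (hk : 1 ≤ k) (hl : 1 ≤ l) (hb : b < 2 * (k + l)) :
    ¬ (drawing a b).HasNaturalGrid k l := by
  rw [hasNaturalGrid_iff]
  rintro ⟨P, hP⟩
  obtain ⟨i, hi⟩ := grid_block k l hk hl P hP
  have h1 := verts_card (drawing a b) k l P hP
  have h2 : (P.1 ∪ P.2).biUnion (fun e => e.toFinset) ⊆
      (Finset.univ : Finset (Fin b)).image (fun x => (i, x)) := by
    intro u hu
    rw [Finset.mem_biUnion] at hu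
    obtain ⟨e, he, hu⟩ := hu
    rw [Sym2.mem_toFinset] at hu
    have h3 := (hi e (Finset.mem_union.1 he)).2 u hu
    exact Finset.mem_image.2 ⟨u.2, Finset.mem_univ _, Prod.ext h3.symm rfl⟩
  have h3 := Finset.card_le_card h2
  have h4 : ((Finset.univ : Finset (Fin b)).image (fun x => (i, x))).card ≤ b := by
    refine Finset.card_image_le.trans ?_
    rw [Finset.card_univ, Fintype.card_fin]
  omega

end Pool.Agent.H40.GR
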